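import Mathlib

/-! A one-sided isoperimetric inequality in the discrete cube with sharp constant at degree one. -/

set_option autoImplicit false

namespace Pool.Agent.P.MP_a66f6f_co

open Finset
open scoped symmDiff

variable {ι : Type*} [DecidableEq ι]

/-- sign of the coordinate t at U -/
noncomputable def chi (t : ι) (U : Finset ι) : ℝ := if t ∈ U then 1 else -1

lemma sum_mul_chi (T : Finset ι) (t : ι) (ht : t ∈ T) (g : Finset ι → ℝ) :
    ∑ U ∈ T.powerset, g U * chi t U
      = ∑ U ∈ (T.erase t).powerset, (g (insert t U) - g U) := by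
  conv_lhs => rw [← insert_erase ht]
  rw [sum_powerset_insert (notMem_erase t T), ← sum_add_distrib]
  refine sum_congr rfl fun U hU => ?_
  have h : t ∉ U := fun h => notMem_erase t T (mem_powerset.1 hU h)
  simp [chi, h]
  ring

lemma sum_chi (T : Finset ι) (t : ι) (ht : t ∈ T) : ∑ U ∈ T.powerset, chi t U = 0 := by
  have := sum_mul_chi T t ht (fun _ => 1)
  simpa using this

lemma sum_chi_chi (T : Finset ι) (t t' : ι) (ht : t ∈ T) :
    ∑ U ∈ T.powerset, chi t' U * chi t U = if t' = t then (2 : ℝ) ^ T.card else 0 := by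
  split_ifs with h
  · subst h
    have : ∀ U ∈ T.powerset, chi t' U * chi t' U = 1 := by
      intro U _
      unfold chi
      split_ifs <;> norm_num
    rw [sum_congr rfl this]
    simp
  · rw [sum_mul_chi T t ht]
    refine sum_eq_zero fun U _ => ?_
    simp [chi, h]

lemma sum_X_sq (T M : Finset ι) (hM : M ⊆ T) :
    ∑ U ∈ T.powerset, (∑ t ∈ M, chi t U) ^ 2 = (M.card : ℝ) * 2 ^ T.card := by
  have : ∀ U ∈ T.powerset, (∑ t ∈ M, chi t U) ^ 2 = ∑ t ∈ M, ∑ t' ∈ M, chi t' U * chi t U := by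
    intro U _
    rw [sq, sum_mul_sum, sum_comm]
  rw [sum_congr rfl this, sum_comm]
  have h2 : ∀ t ∈ M, ∑ U ∈ T.powerset, ∑ t' ∈ M, chi t' U * chi t U = (2 : ℝ) ^ T.card := by
    intro t ht
    rw [sum_comm, sum_congr rfl (fun t' _ => sum_chi_chi T t t' (hM ht))]
    simp [ht]
  rw [sum_congr rfl h2]
  simp

lemma level_one_bound (T M : Finset ι) (hM : M ⊆ T) (g : Finset ι → ℝ)
    (hg : ∀ U, g U = 0 ∨ g U = 1) :
    ∑ t ∈ M, ∑ U ∈ T.powerset, g U * chi t U ≤ 2 ^ T.card * √(M.card : ℝ) / 2 := by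
  rcases M.eq_empty_or_nonempty with rfl | hne
  · simp
  have hr : 0 < √(M.card : ℝ) := Real.sqrt_pos.2 (by exact_mod_cast hne.card_pos)
  set r := √(M.card : ℝ) with hrdef
  have hrr : r * r = M.card := Real.mul_self_sqrt (by positivity)
  rw [sum_comm]
  have h0 : ∑ U ∈ T.powerset, ∑ t ∈ M, chi t U = 0 := by
    rw [sum_comm]
    exact sum_eq_zero fun t ht => sum_chi T t (hM ht)
  have h1 : ∀ U ∈ T.powerset, ∑ t ∈ M, g U * chi t U
      ≤ (∑ t ∈ M, chi t U) / 2 + ((∑ t ∈ M, chi t U) ^ 2 / r + r) / 4 := by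
    intro U _
    rw [← mul_sum]
    set X := ∑ t ∈ M, chi t U
    have e1 : X ^ 2 / r + r - 2 * X = (X - r) ^ 2 / r := by field_simp; ring
    have e2 : X ^ 2 / r + r + 2 * X = (X + r) ^ 2 / r := by field_simp; ring
    have p1 : 0 ≤ (X - r) ^ 2 / r := by positivity
    have p2 : 0 ≤ (X + r) ^ 2 / r := by positivity
    rcases hg U with h | h <;> rw [h] <;> linarith
  refine (sum_le_sum h1).trans (le_of_eq ?_)
  rw [sum_add_distrib, ← sum_div, h0, ← sum_div, sum_add_distrib, ← sum_div, sum_X_sq T M hM,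
    ← hrr]
  simp
  field_simp
  ring

/-- unnormalised average over the subcube with free set T through x -/
noncomputable def avg (f : Finset ι → ℝ) (T x : Finset ι) : ℝ := ∑ U ∈ T.powerset, f (x ∆ U)

lemma symmDiff_insert' (x U : Finset ι) (t : ι) (h : t ∉ U) :
    x ∆ (insert t U) = (x ∆ {t}) ∆ U := by
  ext a
  by_cases ha : a = t
  · subst ha; simp [mem_symmDiff, h]
  · simp [mem_symmDiff, ha]

lemma avg_erase (f : Finset ι → ℝ) (T x : Finset ι) (t : ι) (ht : t ∈ T) :
    avg f T x = avg f (T.erase t) x + avg f (T.erase t) (x ∆ {t}) := by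
  unfold avg
  conv_lhs => rw [← insert_erase ht]
  rw [sum_powerset_insert (notMem_erase t T)]
  congr 1
  refine sum_congr rfl fun U hU => ?_
  rw [symmDiff_insert' x U t (fun h => notMem_erase t T (mem_powerset.1 hU h))]

lemma avg_diff (f : Finset ι → ℝ) (T x : Finset ι) (t : ι) (ht : t ∈ T) :
    avg f (T.erase t) (x ∆ {t}) - avg f (T.erase t) x
      = ∑ U ∈ T.powerset, f (x ∆ U) * chi t U := by
  rw [sum_mul_chi T t ht (fun U => f (x ∆ U))]
  unfold avg
  rw [← sum_sub_distrib]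
  refine sum_congr rfl fun U hU => ?_
  rw [symmDiff_insert' x U t (fun h => notMem_erase t T (mem_powerset.1 hU h))]

variable [Fintype ι]

lemma sum_flip (U : Finset ι) (g : Finset ι → ℝ) : ∑ x, g (x ∆ U) = ∑ x, g x := by
  refine Fintype.sum_bijective (fun x => x ∆ U) ?_ _ _ (fun _ => rfl)
  exact Function.Involutive.bijective (fun x => by simp)

lemma antisym_sum (t : ι) (f δ : Finset ι → ℝ) (hδ : ∀ x, δ (x ∆ {t}) = - δ x) :
    ∑ x, f x * δ x = ∑ x, (1 - f x) * (f (x ∆ {t}) * (- δ x)) := by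
  have h1 : ∑ x, f x * f (x ∆ {t}) * δ x = - ∑ x, f x * f (x ∆ {t}) * δ x := by
    conv_lhs => rw [← sum_flip {t}]
    rw [← sum_neg_distrib]
    refine sum_congr rfl fun x _ => ?_
    rw [hδ, symmDiff_symmDiff_cancel_right]
    ring
  have h2 : ∑ x, f x * f (x ∆ {t}) * δ x = 0 := by linarith
  have h3 : ∑ x, f x * δ x = ∑ x, f (x ∆ {t}) * (- δ x) := by
    conv_lhs => rw [← sum_flip {t}]
    refine sum_congr rfl fun x _ => ?_
    simp [hδ]
  have h4 : ∑ x, (1 - f x) * (f (x ∆ {t}) * (- δ x))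
      = ∑ x, f (x ∆ {t}) * (- δ x) + ∑ x, f x * f (x ∆ {t}) * δ x := by
    rw [← sum_add_distrib]
    refine sum_congr rfl fun x _ => ?_
    ring
  rw [h4, h2, h3, add_zero]

/-- total variance over the subcubes with free set T -/
noncomputable def tv (f : Finset ι → ℝ) (T : Finset ι) : ℝ :=
  ∑ x, f x * (f x - avg f T x / 2 ^ T.card)

lemma tv_step (f : Finset ι → ℝ) (T : Finset ι) (t : ι) (ht : t ∈ T) :
    2 * tv f T = 2 * tv f (T.erase t)
      + ∑ x, (1 - f x) * (f (x ∆ {t}) *
          (2 * (∑ U ∈ T.powerset, f (x ∆ U) * chi t U) / 2 ^ T.card)) := by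
  have hc : T.card = (T.erase t).card + 1 := (card_erase_add_one ht).symm
  have key := antisym_sum t f
    (fun x => 2 * (avg f (T.erase t) x - avg f (T.erase t) (x ∆ {t})) / 2 ^ T.card)
    (fun x => by simp; ring)
  have e : ∀ x, 2 * (∑ U ∈ T.powerset, f (x ∆ U) * chi t U) / 2 ^ T.card
      = -(2 * (avg f (T.erase t) x - avg f (T.erase t) (x ∆ {t})) / 2 ^ T.card) := by
    intro x
    rw [← avg_diff f T x t ht]
    ring
  simp only [e]
  rw [← key]
  unfold tv
  rw [mul_sum, mul_sum, ← sum_add_distrib]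
  refine sum_congr rfl fun x _ => ?_
  rw [avg_erase f T x t ht, hc, pow_succ]
  field_simp
  ring

theorem cube_ineq (f : Finset ι → ℝ) (hf : ∀ x, f x = 0 ∨ f x = 1) (c : ℕ → ℝ)
    (hc0 : 0 ≤ c 0) (hc : ∀ m : ℕ, √(m : ℝ) ≤ m * (c m - c (m - 1))) (T : Finset ι) :
    2 * tv f T ≤ ∑ x, (1 - f x) * c (T.filter (fun t => f (x ∆ {t}) = 1)).card := by
  have h01 : ∀ x, 0 ≤ 1 - f x := fun x => by rcases hf x with h | h <;> rw [h] <;> norm_num
  induction' hn : T.card with n ih generalizing T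
  · have : T = ∅ := card_eq_zero.1 hn
    subst this
    have : tv f ∅ = 0 := by
      unfold tv avg
      have : ∀ x : Finset ι, x ∆ (∅ : Finset ι) = x := fun x => symmDiff_bot x
      simp [this]
    rw [this, mul_zero]
    exact sum_nonneg fun x _ => mul_nonneg (h01 x) (by simpa using hc0)
  · have hpos : (0 : ℝ) < T.card := by rw [hn]; positivity
    have hsum : (T.card : ℝ) * (2 * tv f T) = ∑ t ∈ T, 2 * tv f T := by simp
    refine le_of_mul_le_mul_left ?_ hpos
    rw [hsum, sum_congr rfl (fun t ht => tv_step f T t ht), mul_sum]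
    have hih : ∀ t ∈ T, 2 * tv f (T.erase t) + ∑ x, (1 - f x) * (f (x ∆ {t}) *
          (2 * (∑ U ∈ T.powerset, f (x ∆ U) * chi t U) / 2 ^ T.card))
        ≤ ∑ x, (1 - f x) * (c ((T.erase t).filter (fun t => f (x ∆ {t}) = 1)).card
          + f (x ∆ {t}) * (2 * (∑ U ∈ T.powerset, f (x ∆ U) * chi t U) / 2 ^ T.card)) := by
      intro t ht
      have := ih (T.erase t) (by rw [card_erase_of_mem ht, hn]; rfl)
      simp only [mul_add, sum_add_distrib]
      linarith
    refine (sum_le_sum hih).trans ?_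
    rw [sum_comm]
    refine sum_le_sum fun x _ => ?_
    rw [← mul_sum, mul_left_comm]
    refine mul_le_mul_of_nonneg_left ?_ (h01 x)
    set M := T.filter (fun t => f (x ∆ {t}) = 1) with hM
    have hMT : M ⊆ T := filter_subset _ _
    rw [sum_add_distrib]
    have e1 : ∑ t ∈ T, c ((T.erase t).filter (fun t => f (x ∆ {t}) = 1)).card
        = M.card * c (M.card - 1) + (T.card - M.card) * c M.card := by
      rw [← sum_sdiff hMT, add_comm]
      congr 1
      · rw [sum_congr rfl (g := fun _ => c (M.card - 1))]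
        · simp
        · intro t ht
          rw [filter_erase, card_erase_of_mem ht]
      · rw [sum_congr rfl (g := fun _ => c M.card)]
        · simp [card_sdiff_of_subset hMT, Nat.cast_sub (card_le_card hMT)]
        · intro t ht
          rw [filter_erase, erase_eq_of_notMem (mem_sdiff.1 ht).2]
    have e2 : ∑ t ∈ T, f (x ∆ {t}) * (2 * (∑ U ∈ T.powerset, f (x ∆ U) * chi t U) / 2 ^ T.card)
        = 2 * (∑ t ∈ M, ∑ U ∈ T.powerset, f (x ∆ U) * chi t U) / 2 ^ T.card := by
      rw [mul_sum, sum_div, hM, sum_filter]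
      refine sum_congr rfl fun t _ => ?_
      rcases hf (x ∆ {t}) with h | h <;> simp [h]
    have e3 := level_one_bound T M hMT (fun U => f (x ∆ U)) (fun U => hf _)
    have e4 : 2 * (∑ t ∈ M, ∑ U ∈ T.powerset, f (x ∆ U) * chi t U) / 2 ^ T.card
        ≤ √(M.card : ℝ) := by
      rw [div_le_iff₀ (by positivity)]
      linarith
    rw [e1, e2]
    have := hc M.card
    linarith

/-- The form used later: a family S of at most half the cube. -/
theorem cube_card_le (S : Finset (Finset ι)) (hS : 2 * S.card ≤ 2 ^ Fintype.card ι) (c : ℕ → ℝ)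
    (hc0 : 0 ≤ c 0) (hc : ∀ m : ℕ, √(m : ℝ) ≤ m * (c m - c (m - 1))) :
    (S.card : ℝ) ≤ ∑ x ∈ Sᶜ, c (univ.filter (fun t => x ∆ {t} ∈ S)).card := by
  have h := cube_ineq (fun x => if x ∈ S then (1 : ℝ) else 0)
    (fun x => by by_cases h : x ∈ S <;> simp [h]) c hc0 hc univ
  have havg : ∀ x : Finset ι, avg (fun x => if x ∈ S then (1 : ℝ) else 0) univ x = S.card := by
    intro x
    unfold avg
    rw [powerset_univ]
    have := sum_flip x (fun U => if U ∈ S then (1 : ℝ) else 0)
    simp only [symmDiff_comm x]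
    rw [this]
    simp
  have htv : tv (fun x => if x ∈ S then (1 : ℝ) else 0) univ
      = S.card * (1 - S.card / 2 ^ Fintype.card ι) := by
    unfold tv
    simp only [havg, card_univ]
    rw [sum_congr rfl (g := fun x => if x ∈ S then (1 - (S.card : ℝ) / 2 ^ Fintype.card ι) else 0)]
    · simp
      ring
    · intro x _
      by_cases hx : x ∈ S <;> simp [hx]
  have hr : ∑ x, (1 - if x ∈ S then (1 : ℝ) else 0) *
        c (univ.filter (fun t => (if x ∆ {t} ∈ S then (1 : ℝ) else 0) = 1)).card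
      = ∑ x ∈ Sᶜ, c (univ.filter (fun t => x ∆ {t} ∈ S)).card := by
    rw [← sum_add_sum_compl S]
    rw [sum_eq_zero (s := S) (fun x hx => by simp [hx]), zero_add]
    refine sum_congr rfl fun x hx => ?_
    have hx' : x ∉ S := mem_compl.1 hx
    simp [hx']
  rw [htv, hr] at h
  have h2 : (S.card : ℝ) / 2 ^ Fintype.card ι ≤ 1 / 2 := by
    rw [div_le_div_iff₀ (by positivity) (by norm_num)]
    have : ((2 * S.card : ℕ) : ℝ) ≤ ((2 ^ Fintype.card ι : ℕ) : ℝ) := by exact_mod_cast hS
    push_cast at this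
    linarith
  have h3 : (0 : ℝ) ≤ S.card := by positivity
  nlinarith

end Pool.Agent.P.MP_a66f6f_co
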