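import Mathlib

/-! Kneser graphs. -/

set_option autoImplicit false

namespace Pool.Agent.P.MP_a66f6f_co

/-- The Kneser graph K(m,n): vertices are the n-element subsets of an m-element set, two distinct
subsets being adjacent exactly when they are disjoint. -/
def kneser (m n : ℕ) : SimpleGraph {S : Finset (Fin m) // S.card = n} where
  Adj S T := S ≠ T ∧ Disjoint S.1 T.1
  symm := ⟨fun _ _ h => ⟨h.1.symm, h.2.symm⟩⟩
  loopless := ⟨fun _ h => h.1 rfl⟩

end Pool.Agent.P.MP_a66f6f_co
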