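import Mathlib

/-! Numerical lemmas. -/

set_option autoImplicit false

namespace Pool.Agent.P.MP_a66f6f_co

/-- the cost function -/
noncomputable def cst (m : ℕ) : ℝ := if m = 0 then 0 else 2 * √(m : ℝ) - 1

lemma cst_zero : cst 0 = 0 := by simp [cst]

lemma cst_prop (m : ℕ) : √(m : ℝ) ≤ m * (cst m - cst (m - 1)) := by
  rcases m with _ | _ | m
  · simp
  · simp [cst]; norm_num
  · have e : cst (m + 1 + 1) - cst (m + 1 + 1 - 1)
        = 2 * (√((m + 1 + 1 : ℕ) : ℝ) - √((m + 1 : ℕ) : ℝ)) := by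
      simp [cst]; ring
    rw [e]
    set a := √((m + 1 + 1 : ℕ) : ℝ)
    set b := √((m + 1 : ℕ) : ℝ)
    have ha : a * a = ((m + 1 + 1 : ℕ) : ℝ) := Real.mul_self_sqrt (by positivity)
    have hb : b * b = ((m + 1 : ℕ) : ℝ) := Real.mul_self_sqrt (by positivity)
    have ha0 : 0 ≤ a := Real.sqrt_nonneg _
    have hb0 : 0 ≤ b := Real.sqrt_nonneg _
    have hab : a * a = b * b + 1 := by rw [ha, hb]; push_cast; ring
    rw [← ha]
    have h1 : 1 ≤ 2 * a * (a - b) := by nlinarith [sq_nonneg (a - b)]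
    nlinarith [mul_le_mul_of_nonneg_left h1 ha0]

lemma choose_ratio (k d : ℕ) (hd : d ≤ k) (hk : 0 < k) (m : ℕ) (hm : m ≤ k) :
    ((k - m).choose d : ℝ) ≤ (1 - (d : ℝ) / k) ^ m * k.choose d := by
  have hk' : (0 : ℝ) < k := by exact_mod_cast hk
  have hu : 0 ≤ 1 - (d : ℝ) / k := by
    rw [sub_nonneg, div_le_one hk']; exact_mod_cast hd
  induction m with
  | zero => simp
  | succ m ih =>
    have ih' := ih (by omega)
    obtain ⟨j, hj⟩ : ∃ j, k - m = j + 1 := ⟨k - m - 1, by omega⟩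
    have hj' : k - (m + 1) = j := by omega
    rw [hj'] 
    rw [hj] at ih'
    have h := Nat.choose_mul_succ_eq j d
    have h' : (j.choose d : ℝ) * (j + 1) = ((j + 1).choose d : ℝ) * ((j + 1 - d : ℕ) : ℝ) := by
      exact_mod_cast h
    have h2 : ((j + 1 - d : ℕ) : ℝ) ≤ (1 - (d : ℝ) / k) * (j + 1) := by
      rcases le_total d (j + 1) with hle | hle
      · rw [Nat.cast_sub hle]
        have hjk : ((j : ℝ) + 1) ≤ k := by exact_mod_cast (by omega : j + 1 ≤ k)
        have : (d : ℝ) / k * (j + 1) ≤ d := by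
          rw [div_mul_eq_mul_div, div_le_iff₀ hk']
          exact mul_le_mul_of_nonneg_left hjk (by positivity)
        push_cast
        linarith
      · rw [Nat.sub_eq_zero_of_le hle]
        simp only [Nat.cast_zero]
        positivity
    have h3 : (j.choose d : ℝ) ≤ (1 - (d : ℝ) / k) * ((j + 1).choose d : ℝ) := by
      refine le_of_mul_le_mul_right ?_ (show (0 : ℝ) < j + 1 by positivity)
      rw [h']
      calc ((j + 1).choose d : ℝ) * ((j + 1 - d : ℕ) : ℝ)
          ≤ ((j + 1).choose d : ℝ) * ((1 - (d : ℝ) / k) * (j + 1)) :=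
            mul_le_mul_of_nonneg_left h2 (by positivity)
        _ = _ := by ring
    calc (j.choose d : ℝ) ≤ (1 - (d : ℝ) / k) * ((j + 1).choose d : ℝ) := h3
      _ ≤ (1 - (d : ℝ) / k) * ((1 - (d : ℝ) / k) ^ m * k.choose d) :=
          mul_le_mul_of_nonneg_left ih' hu
      _ = _ := by ring

lemma pow_mul_le_one (u : ℝ) (h0 : 0 ≤ u) (h1 : u ≤ 1) (j : ℕ) :
    (1 - u) ^ j * (1 + j * u) ≤ 1 := by
  induction j with
  | zero => simp
  | succ j ih =>
    have hp : 0 ≤ (1 - u) ^ j := pow_nonneg (by linarith) _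
    have : (1 - u) * (1 + (j + 1) * u) ≤ 1 + j * u := by
      have : 0 ≤ ((j : ℝ) + 1) * u * u := by positivity
      nlinarith
    calc (1 - u) ^ (j + 1) * (1 + ((j + 1 : ℕ) : ℝ) * u)
        = (1 - u) ^ j * ((1 - u) * (1 + (j + 1) * u)) := by push_cast; ring
      _ ≤ (1 - u) ^ j * (1 + j * u) := mul_le_mul_of_nonneg_left this hp
      _ ≤ 1 := ih

lemma cst_le (k d : ℕ) (hd : (2 * d + 2) ^ 2 ≤ k) (j : ℕ) (hj : j + 1 ≤ k) :
    cst (j + 1) * (1 + j * ((d : ℝ) / k)) ≤ j + 1 := by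
  have hk : 0 < k := by omega
  have hk' : (0 : ℝ) < k := by exact_mod_cast hk
  rcases Nat.eq_zero_or_pos j with rfl | hj0
  · simp [cst]; norm_num
  have e : cst (j + 1) = 2 * √((j + 1 : ℕ) : ℝ) - 1 := by simp [cst]
  rw [e]
  set r := √((j + 1 : ℕ) : ℝ) with hr
  set R := √(k : ℝ) with hR
  have hrr : r * r = (j : ℝ) + 1 := by
    rw [hr, Real.mul_self_sqrt (by positivity)]; push_cast; ring
  have hRR : R * R = k := Real.mul_self_sqrt (by positivity)
  have hrR : r ≤ R := Real.sqrt_le_sqrt (by exact_mod_cast hj)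
  have hr0 : 0 ≤ r := Real.sqrt_nonneg _
  have hj1 : (1 : ℝ) ≤ j := by exact_mod_cast hj0
  have hr14 : 1.4 ≤ r := by
    by_contra h
    push Not at h
    nlinarith
  have hdR : 2 * (d : ℝ) + 2 ≤ R := by
    rw [hR]
    apply Real.le_sqrt_of_sq_le
    exact_mod_cast hd
  have hd0 : (0 : ℝ) ≤ d := by positivity
  -- main inequality: d (r+1)(2r-1) ≤ k (r-1)
  have main : (d : ℝ) * ((r + 1) * (2 * r - 1)) ≤ k * (r - 1) := by
    rw [← hRR]
    have hq : 0 ≤ (r + 1) * (2 * r - 1) := by nlinarith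
    rcases le_total r 4 with h4 | h4
    · have h16 : 16 * (d : ℝ) ≤ R * R := by nlinarith [sq_nonneg (R - 4)]
      have h2 : (r + 1) * (2 * r - 1) ≤ 16 * (r - 1) := by nlinarith
      calc (d : ℝ) * ((r + 1) * (2 * r - 1)) ≤ d * (16 * (r - 1)) :=
            mul_le_mul_of_nonneg_left h2 hd0
        _ = 16 * d * (r - 1) := by ring
        _ ≤ R * R * (r - 1) := mul_le_mul_of_nonneg_right h16 (by linarith)
    · -- 2 d ≤ R - 2 and (R-2) (r+1)(2r-1) ≤ 2 R^2 (r-1)
      have h5 : (R - 2) * (r * r) ≤ (r - 2) * (R * R) := by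
        have : 0 ≤ (R - r) * (R * r - 2 * R - 2 * r) := by
          apply mul_nonneg (by linarith)
          nlinarith
        nlinarith
      have h6 : (r - 2) * ((r + 1) * (2 * r - 1)) ≤ 2 * (r * r) * (r - 1) := by nlinarith
      have h7 : 2 * (d : ℝ) * (r * r) ≤ (r - 2) * (R * R) := by
        have : 2 * (d : ℝ) * (r * r) ≤ (R - 2) * (r * r) :=
          mul_le_mul_of_nonneg_right (by linarith) (by positivity)
        linarith
      have hrp : 0 < r * r := by nlinarith
      refine le_of_mul_le_mul_left ?_ (show 0 < 2 * (r * r) by linarith)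
      calc 2 * (r * r) * ((d : ℝ) * ((r + 1) * (2 * r - 1)))
          = (2 * d * (r * r)) * ((r + 1) * (2 * r - 1)) := by ring
        _ ≤ ((r - 2) * (R * R)) * ((r + 1) * (2 * r - 1)) := mul_le_mul_of_nonneg_right h7 hq
        _ = (R * R) * ((r - 2) * ((r + 1) * (2 * r - 1))) := by ring
        _ ≤ (R * R) * (2 * (r * r) * (r - 1)) := mul_le_mul_of_nonneg_left h6 (by positivity)
        _ = _ := by ring
  have hju : (j : ℝ) = (r - 1) * (r + 1) := by linarith
  have h8 : (2 * r - 1) * (j * ((d : ℝ) / k)) ≤ (r - 1) * (r - 1) := by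
    have : (2 * r - 1) * (j * ((d : ℝ) / k)) = (r - 1) * (d * ((r + 1) * (2 * r - 1))) / k := by
      rw [hju]; field_simp
    rw [this, div_le_iff₀ hk']
    have := mul_le_mul_of_nonneg_left main (show 0 ≤ r - 1 by linarith)
    linarith
  nlinarith

lemma cst_choose (k d : ℕ) (hd : (2 * d + 2) ^ 2 ≤ k) (m : ℕ) (hm : m ≤ k) :
    (d : ℝ) / k * k.choose d * cst m ≤ (k.choose d : ℝ) - (k - m).choose d := by
  have hk : 0 < k := by
    have : 0 < (2 * d + 2) ^ 2 := by positivity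
    omega
  have hdk : d ≤ k := by nlinarith
  have hk' : (0 : ℝ) < k := by exact_mod_cast hk
  rcases m with _ | j
  · simp [cst]
  set u := (d : ℝ) / k with hu
  have hu0 : 0 ≤ u := by positivity
  have hu1 : u ≤ 1 := by rw [hu, div_le_one hk']; exact_mod_cast hdk
  have h1 := choose_ratio k d hdk hk (j + 1) hm
  have h2 := pow_mul_le_one u hu0 hu1 j
  have h3 := cst_le k d hd j hm
  rw [← hu] at h1 h3
  have hC : (0 : ℝ) ≤ k.choose d := by positivity
  have hp : 0 < 1 + j * u := by positivity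
  have h4 : u * cst (j + 1) ≤ 1 - (1 - u) ^ (j + 1) := by
    refine le_of_mul_le_mul_right ?_ hp
    have a1 : u * cst (j + 1) * (1 + j * u) ≤ u * (j + 1) := by
      rw [mul_assoc]; exact mul_le_mul_of_nonneg_left h3 hu0
    have a2 : (1 - u) ^ (j + 1) * (1 + j * u) ≤ 1 - u := by
      have := mul_le_mul_of_nonneg_left h2 (show 0 ≤ 1 - u by linarith)
      rw [pow_succ]; linarith
    nlinarith
  nlinarith [mul_le_mul_of_nonneg_right h4 hC]

end Pool.Agent.P.MP_a66f6f_co
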