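import Pool.Agent.P.MP_a66f6f_co.Cube
import Pool.Agent.P.MP_a66f6f_co.Num

/-! The lower bound. -/

set_option autoImplicit false

namespace Pool.Agent.P.MP_a66f6f_co

open Finset
open scoped symmDiff

lemma card_meet {ι : Type*} [DecidableEq ι] [Fintype ι] (d : ℕ) (N : Finset ι) :
    (((univ : Finset ι).powersetCard d).filter (fun D => ¬ Disjoint D N)).card
      + (Fintype.card ι - N.card).choose d = (Fintype.card ι).choose d := by
  have h1 : ((univ : Finset ι).powersetCard d).filter (fun D => Disjoint D N)
      = Nᶜ.powersetCard d := by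
    ext D
    simp [mem_powersetCard, subset_compl_iff_disjoint_right, and_comm]
  have h2 := card_filter_add_card_filter_not (s := (univ : Finset ι).powersetCard d)
    (fun D => Disjoint D N)
  rw [h1, card_powersetCard, card_compl, card_powersetCard, card_univ] at h2
  omega

theorem abstract_bound {ι β : Type*} [DecidableEq ι] [Fintype ι] [DecidableEq β] [Fintype β]
    (k' d L : ℕ) (C : Finset ι → Finset β) (hC : ∀ x, (C x).card = k')
    (hanti : ∀ x, Disjoint (C x) (C xᶜ))
    (hU : ∀ x D : Finset ι, D.card = d → (D.biUnion (fun t => C (x ∆ {t}) \ C x)).card ≤ L)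
    (hd : (2 * d + 2) ^ 2 ≤ Fintype.card ι) : k' * d ≤ Fintype.card ι * L := by
  set k := Fintype.card ι with hk
  have hkpos : 0 < k := by
    have : 0 < (2 * d + 2) ^ 2 := by positivity
    omega
  have hdk : d ≤ k := by nlinarith
  have hk' : (0 : ℝ) < k := by exact_mod_cast hkpos
  let S : β → Finset (Finset ι) := fun j => univ.filter (fun x => j ∈ C x)
  have hS : ∀ j, 2 * (S j).card ≤ 2 ^ k := by
    intro j
    have hinj : Function.Injective (fun x : Finset ι => xᶜ) := compl_injective
    have hdisj : Disjoint (S j) ((S j).image (fun x => xᶜ)) := by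
      rw [disjoint_right]
      intro y hy hy2
      obtain ⟨x, hx, rfl⟩ := mem_image.1 hy
      simp only [S, mem_filter, mem_univ, true_and] at hx hy2
      exact disjoint_left.1 (hanti x) hx hy2
    have h1 := card_le_univ (S j ∪ (S j).image (fun x => xᶜ))
    rw [card_union_of_disjoint hdisj, card_image_of_injective _ hinj, Fintype.card_finset,
      ← hk] at h1
    omega
  have hsum : ∑ j, ((S j).card : ℝ) = 2 ^ k * k' := by
    have : ∀ j, ((S j).card : ℝ) = ∑ x, if j ∈ C x then (1 : ℝ) else 0 := by
      intro j; simp [S]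
    simp only [this]
    rw [sum_comm]
    have h2 : ∀ x, ∑ j, (if j ∈ C x then (1 : ℝ) else 0) = k' := by
      intro x; simp [hC]
    simp only [h2]
    simp [Fintype.card_finset, hk]
  have hcube : ∀ j, ((S j).card : ℝ)
      ≤ ∑ x, if j ∈ C x then 0 else cst (univ.filter (fun t => j ∈ C (x ∆ {t}))).card := by
    intro j
    have := cube_card_le (S j) (hS j) cst (le_of_eq cst_zero.symm) cst_prop
    refine this.trans (le_of_eq ?_)
    rw [← sum_add_sum_compl (S j), sum_eq_zero (s := S j), zero_add]
    · refine sum_congr rfl fun x hx => ?_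
      have hx' : j ∉ C x := by simpa [S] using hx
      simp [hx', S]
    · intro x hx
      have hx' : j ∈ C x := by simpa [S] using hx
      simp [hx']
  have hx : ∀ x : Finset ι, (d : ℝ) / k * k.choose d *
      ∑ j, (if j ∈ C x then 0 else cst (univ.filter (fun t => j ∈ C (x ∆ {t}))).card)
      ≤ k.choose d * L := by
    intro x
    rw [mul_sum]
    have h1 : ∀ j, (d : ℝ) / k * k.choose d *
        (if j ∈ C x then 0 else cst (univ.filter (fun t => j ∈ C (x ∆ {t}))).card)
        ≤ ∑ D ∈ (univ : Finset ι).powersetCard d,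
            if j ∈ D.biUnion (fun t => C (x ∆ {t}) \ C x) then (1 : ℝ) else 0 := by
      intro j
      by_cases hj : j ∈ C x
      · simp [hj]
      · rw [if_neg hj]
        set N := univ.filter (fun t => j ∈ C (x ∆ {t})) with hN
        have h2 := cst_choose k d hd N.card (card_le_univ N)
        have h3 := card_meet d N
        rw [← hk] at h3
        have h4 : ∑ D ∈ (univ : Finset ι).powersetCard d,
            (if j ∈ D.biUnion (fun t => C (x ∆ {t}) \ C x) then (1 : ℝ) else 0)
            = (((univ : Finset ι).powersetCard d).filter (fun D => ¬ Disjoint D N)).card := by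
          rw [← sum_boole]
          refine sum_congr rfl fun D _ => ?_
          congr 1
          simp [not_disjoint_iff, hN, hj]
        rw [h4]
        have h5 : ((((univ : Finset ι).powersetCard d).filter (fun D => ¬ Disjoint D N)).card : ℝ)
            + ((k - N.card).choose d : ℝ) = k.choose d := by exact_mod_cast h3
        linarith
    refine (sum_le_sum fun j _ => h1 j).trans ?_
    rw [sum_comm]
    have h6 : ∀ D ∈ (univ : Finset ι).powersetCard d,
        ∑ j, (if j ∈ D.biUnion (fun t => C (x ∆ {t}) \ C x) then (1 : ℝ) else 0) ≤ L := by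
      intro D hD
      have := hU x D (mem_powersetCard.1 hD).2
      rw [sum_boole]
      simp only [filter_mem_eq_inter, univ_inter]
      exact_mod_cast this
    refine (sum_le_sum h6).trans (le_of_eq ?_)
    simp [hk]
  have hCpos : (0 : ℝ) < k.choose d := by exact_mod_cast Nat.choose_pos hdk
  have htot : (d : ℝ) / k * k.choose d * (2 ^ k * k') ≤ 2 ^ k * (k.choose d * L) := by
    rw [← hsum]
    calc (d : ℝ) / k * k.choose d * ∑ j, ((S j).card : ℝ)
        ≤ (d : ℝ) / k * k.choose d * ∑ j, ∑ x,
            if j ∈ C x then 0 else cst (univ.filter (fun t => j ∈ C (x ∆ {t}))).card :=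
          mul_le_mul_of_nonneg_left (sum_le_sum fun j _ => hcube j) (by positivity)
      _ = ∑ x, (d : ℝ) / k * k.choose d * ∑ j,
            if j ∈ C x then 0 else cst (univ.filter (fun t => j ∈ C (x ∆ {t}))).card := by
          rw [sum_comm, mul_sum]
      _ ≤ ∑ x : Finset ι, (k.choose d : ℝ) * L := sum_le_sum fun x _ => hx x
      _ = _ := by simp [Fintype.card_finset, hk]
  have hfin : (k' : ℝ) * d ≤ k * L := by
    have h7 : (d : ℝ) / k * k' ≤ L := by
      refine le_of_mul_le_mul_left ?_ (show (0 : ℝ) < 2 ^ k * k.choose d by positivity)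
      linarith
    rw [div_mul_eq_mul_div, div_le_iff₀ hk'] at h7
    linarith
  exact_mod_cast hfin

lemma union_bound {ι β : Type*} [DecidableEq ι] [DecidableEq β] (E : ι → Finset β) (q s : ℕ)
    (hs : ∀ D : Finset ι, D.card = s → (D.biUnion E).card < (q + 1) * s)
    (D : Finset ι) (hD : s ≤ D.card) : (D.biUnion E).card + 1 ≤ q * D.card + s := by
  obtain ⟨j, hj⟩ := Nat.exists_eq_add_of_le hD
  induction j generalizing D with
  | zero =>
    have := hs D (by omega)
    rw [hj]
    nlinarith
  | succ j ih =>
    by_cases h : ∃ t ∈ D, (E t \ (D.erase t).biUnion E).card ≤ q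
    · obtain ⟨t, ht, hq⟩ := h
      have hc := card_erase_add_one ht
      have h1 := ih (D.erase t) (by omega) (by omega)
      have h2 : D.biUnion E = E t ∪ (D.erase t).biUnion E := by
        conv_lhs => rw [← insert_erase ht, biUnion_insert]
      rw [h2, ← card_sdiff_add_card, ← hc]
      nlinarith
    · push Not at h
      exfalso
      obtain ⟨D', hD', hc⟩ := exists_subset_card_eq hD
      have h1 := hs D' hc
      have h2 : D'.biUnion (fun t => E t \ (D.erase t).biUnion E) ⊆ D'.biUnion E :=
        biUnion_mono fun t _ => sdiff_subset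
      have h3 : (D'.biUnion (fun t => E t \ (D.erase t).biUnion E)).card
          = ∑ t ∈ D', (E t \ (D.erase t).biUnion E).card := by
        refine card_biUnion ?_
        intro t ht t' ht' hne
        refine disjoint_left.2 fun j hj hj' => ?_
        exact (mem_sdiff.1 hj).2 (mem_biUnion.2
          ⟨t', mem_erase.2 ⟨hne.symm, hD' ht'⟩, (mem_sdiff.1 hj').1⟩)
      have h4 : D'.card * (q + 1) ≤ ∑ t ∈ D', (E t \ (D.erase t).biUnion E).card := by
        have := card_nsmul_le_sum D' (fun t => (E t \ (D.erase t).biUnion E).card) (q + 1)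
          (fun t ht => h t (hD' ht))
        simpa using this
      have h5 := card_le_card h2
      rw [hc] at h4
      nlinarith

theorem lower_bound {α β : Type*} [DecidableEq α] [Fintype α] [DecidableEq β] [Fintype β]
    (k s k' q d : ℕ) (hα : Fintype.card α = 2 * k + s) (φ : Finset α → Finset β)
    (hcard : ∀ S : Finset α, S.card = k → (φ S).card = k')
    (hdisj : ∀ S T : Finset α, S.card = k → T.card = k → Disjoint S T → Disjoint (φ S) (φ T))
    (hd : (2 * d + 2) ^ 2 ≤ k) (hsd : s ≤ d) (hN : Fintype.card β < 2 * k' + (q + 1) * s) :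
    1 ≤ s ∧ k' * d ≤ k * (q * d + (s - 1)) := by
  obtain ⟨p⟩ : Nonempty (Fin k × Bool ↪ α) :=
    Function.Embedding.nonempty_of_card_le (by simp [hα]; omega)
  let P : Finset (Fin k) → Finset α := fun x => univ.image (fun t => p (t, decide (t ∈ x)))
  have hP : ∀ x, (P x).card = k := by
    intro x
    rw [card_image_of_injective _ (fun t t' h => (Prod.ext_iff.1 (p.injective h)).1)]
    simp
  have hanti : ∀ x, Disjoint (P x) (P xᶜ) := by
    intro x
    refine disjoint_left.2 fun a ha hb => ?_
    obtain ⟨t, -, rfl⟩ := mem_image.1 ha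
    obtain ⟨t', -, h⟩ := mem_image.1 hb
    have h2 := Prod.ext_iff.1 (p.injective h)
    simp only at h2
    obtain ⟨rfl, h3⟩ := h2
    by_cases ht : t' ∈ x <;> simp [ht] at h3
  have hloc : ∀ x D : Finset (Fin k), D.card = s →
      (D.biUnion (fun t => φ (P (x ∆ {t})) \ φ (P x))).card < (q + 1) * s := by
    intro x D hD
    let W : Finset α := P x ∪ D.image (fun t => p (t, decide (t ∉ x)))
    have hW : W.card ≤ k + s := by
      refine (card_union_le _ _).trans ?_
      rw [hP]
      have := card_image_le (s := D) (f := fun t => p (t, decide (t ∉ x)))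
      omega
    have hWc : k ≤ Wᶜ.card := by rw [card_compl, hα]; omega
    obtain ⟨Z, hZ, hZc⟩ := exists_subset_card_eq hWc
    have hZW : Disjoint Z W := subset_compl_iff_disjoint_right.1 hZ
    have h1 : Disjoint (φ Z) (φ (P x)) :=
      hdisj _ _ hZc (hP x) (hZW.mono_right subset_union_left)
    have h2 : ∀ t ∈ D, Disjoint (φ Z) (φ (P (x ∆ {t}))) := by
      intro t ht
      refine hdisj _ _ hZc (hP _) (hZW.mono_right ?_)
      intro a ha
      obtain ⟨t', -, rfl⟩ := mem_image.1 ha
      by_cases h : t' = t
      · subst h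
        refine mem_union_right _ (mem_image.2 ⟨t', ht, ?_⟩)
        simp [mem_symmDiff]
      · refine mem_union_left _ (mem_image.2 ⟨t', mem_univ _, ?_⟩)
        simp [mem_symmDiff, h]
    set B := D.biUnion (fun t => φ (P (x ∆ {t})) \ φ (P x)) with hB
    have h3 : Disjoint (φ (P x)) B := by
      refine disjoint_left.2 fun j hj hj' => ?_
      obtain ⟨t, -, ht⟩ := mem_biUnion.1 hj'
      exact (mem_sdiff.1 ht).2 hj
    have h4 : Disjoint (φ Z) (φ (P x) ∪ B) := by
      refine disjoint_union_right.2 ⟨h1, disjoint_left.2 fun j hj hj' => ?_⟩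
      obtain ⟨t, htD, ht⟩ := mem_biUnion.1 hj'
      exact disjoint_left.1 (h2 t htD) hj (mem_sdiff.1 ht).1
    have h5 := card_le_univ (φ Z ∪ (φ (P x) ∪ B))
    rw [card_union_of_disjoint h4, card_union_of_disjoint h3, hcard _ hZc, hcard _ (hP x)] at h5
    omega
  have hs1 : 1 ≤ s := by
    by_contra h
    have h0 : s = 0 := by omega
    have := hloc ∅ ∅ (by simp [h0])
    simp [h0] at this
  refine ⟨hs1, ?_⟩
  have := abstract_bound k' d (q * d + (s - 1)) (fun x => φ (P x)) (fun x => hcard _ (hP x))
    (fun x => hdisj _ _ (hP _) (hP _) (hanti x))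
    (fun x D hD => by
      have := union_bound (fun t => φ (P (x ∆ {t})) \ φ (P x)) q s (hloc x) D (by omega)
      rw [hD] at this
      omega)
    (by simpa using hd)
  simpa using this

end Pool.Agent.P.MP_a66f6f_co
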