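import Mathlib

/-! Stahl's classical upper bound. -/

set_option autoImplicit false

namespace Pool.Agent.P.MP_a66f6f_co

open Finset

/-- multicolouring of the n-subsets of range m by k-subsets of range N -/
def Col (m n N k : ℕ) : Prop :=
  ∃ φ : Finset ℕ → Finset ℕ,
    (∀ S, S ⊆ range m → S.card = n → φ S ⊆ range N ∧ (φ S).card = k) ∧
    (∀ S T, S ⊆ range m → S.card = n → T ⊆ range m → T.card = n → Disjoint S T →
      Disjoint (φ S) (φ T))

lemma Col.refl (m n : ℕ) : Col m n m n :=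
  ⟨id, fun _ h1 h2 => ⟨h1, h2⟩, fun _ _ _ _ _ _ h => h⟩

lemma Col.zero (m n : ℕ) : Col m n 0 0 :=
  ⟨fun _ => ∅, fun _ _ _ => by simp, fun _ _ _ _ _ _ _ => by simp⟩

lemma Col.comp {m n m' n' m'' n'' : ℕ} (h : Col m n m' n') (h' : Col m' n' m'' n'') :
    Col m n m'' n'' := by
  obtain ⟨φ, a1, a2⟩ := h
  obtain ⟨ψ, b1, b2⟩ := h'
  refine ⟨fun S => ψ (φ S), fun S h1 h2 => b1 _ (a1 S h1 h2).1 (a1 S h1 h2).2, ?_⟩
  intro S T h1 h2 h3 h4 h5
  exact b2 _ _ (a1 S h1 h2).1 (a1 S h1 h2).2 (a1 T h3 h4).1 (a1 T h3 h4).2 (a2 S T h1 h2 h3 h4 h5)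

lemma Col.add {m n N k N' k' : ℕ} (h : Col m n N k) (h' : Col m n N' k') :
    Col m n (N + N') (k + k') := by
  obtain ⟨φ, a1, a2⟩ := h
  obtain ⟨ψ, b1, b2⟩ := h'
  have key : ∀ A B : Finset ℕ, A ⊆ range N → Disjoint A (B.image (fun i => i + N)) := by
    intro A B hA
    refine disjoint_left.2 fun x hx hx' => ?_
    obtain ⟨y, -, rfl⟩ := mem_image.1 hx'
    have := mem_range.1 (hA hx)
    omega
  have hinj : Function.Injective (fun i : ℕ => i + N) := add_left_injective N
  refine ⟨fun S => φ S ∪ (ψ S).image (fun i => i + N), fun S h1 h2 => ⟨?_, ?_⟩, ?_⟩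
  · intro x hx
    rcases mem_union.1 hx with hx | hx
    · have := mem_range.1 ((a1 S h1 h2).1 hx)
      exact mem_range.2 (by omega)
    · obtain ⟨y, hy, rfl⟩ := mem_image.1 hx
      have := mem_range.1 ((b1 S h1 h2).1 hy)
      exact mem_range.2 (by omega)
  · rw [card_union_of_disjoint (key _ _ (a1 S h1 h2).1), card_image_of_injective _ hinj,
      (a1 S h1 h2).2, (b1 S h1 h2).2]
  · intro S T h1 h2 h3 h4 h5
    refine disjoint_union_left.2 ⟨disjoint_union_right.2 ⟨a2 S T h1 h2 h3 h4 h5,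
      key _ _ (a1 S h1 h2).1⟩, disjoint_union_right.2 ⟨(key _ _ (a1 T h3 h4).1).symm, ?_⟩⟩
    exact (disjoint_image hinj).2 (b2 S T h1 h2 h3 h4 h5)

lemma sup_id_mem (S : Finset ℕ) (h : S.Nonempty) : S.sup id ∈ S := by
  obtain ⟨x, hx, e⟩ := exists_mem_eq_sup S h id
  rw [e]; exact hx

lemma Col.step (m n : ℕ) (h : n ≤ m) : Col (m + 2) (n + 1) m n := by
  classical
  let φ : Finset ℕ → Finset ℕ := fun S =>
    if m ∈ S ∧ m + 1 ∈ S then insert ((range m \ S).sup id) ((S.erase (m + 1)).erase m)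
    else S.erase (S.sup id)
  have hne : ∀ S, S ⊆ range (m + 2) → S.card = n + 1 → m ∈ S → m + 1 ∈ S →
      (range m \ S).Nonempty := by
    intro S h1 h2 h3 h4
    rw [sdiff_nonempty]
    intro h5
    have h6 : range (m + 2) ⊆ S := by
      intro x hx
      have hx' := mem_range.1 hx
      rcases (by omega : x < m ∨ x = m ∨ x = m + 1) with h | h | h
      · exact h5 (mem_range.2 h)
      · exact h ▸ h3
      · exact h ▸ h4
    have := card_le_card h6
    rw [card_range] at this
    omega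
  have hmix : ∀ S T, S ⊆ range (m + 2) → S.card = n + 1 → T ⊆ range (m + 2) →
      Disjoint S T → m ∈ S → m + 1 ∈ S → Disjoint (φ S) (φ T) := by
    intro S T h1 h2 h3 h5 h6 h7
    have hT : ¬ (m ∈ T ∧ m + 1 ∈ T) := fun h => disjoint_left.1 h5 h6 h.1
    simp only [φ, if_pos (And.intro h6 h7), if_neg hT]
    refine disjoint_left.2 fun x hx hx' => ?_
    obtain ⟨hx1, hx2⟩ := mem_erase.1 hx'
    rcases mem_insert.1 hx with hx | hx
    · apply hx1
      refine le_antisymm (le_sup (f := id) hx2) ?_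
      rw [hx]
      refine sup_mono fun t ht => mem_sdiff.2 ⟨?_, fun h => disjoint_left.1 h5 h ht⟩
      have a1 := mem_range.1 (h3 ht)
      have a2 : t ≠ m := fun h => disjoint_left.1 h5 h6 (h ▸ ht)
      have a3 : t ≠ m + 1 := fun h => disjoint_left.1 h5 h7 (h ▸ ht)
      exact mem_range.2 (by omega)
    · exact disjoint_left.1 h5 (mem_of_mem_erase (mem_of_mem_erase hx)) hx2
  refine ⟨φ, fun S h1 h2 => ?_, fun S T h1 h2 h3 h4 h5 => ?_⟩
  · by_cases hS : m ∈ S ∧ m + 1 ∈ S
    · have hy := mem_sdiff.1 (sup_id_mem _ (hne S h1 h2 hS.1 hS.2))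
      simp only [φ, if_pos hS]
      constructor
      · intro x hx
        rcases mem_insert.1 hx with hx | hx
        · rw [hx]; exact hy.1
        · obtain ⟨a1, a2⟩ := mem_erase.1 hx
          obtain ⟨a3, a4⟩ := mem_erase.1 a2
          have := mem_range.1 (h1 a4)
          exact mem_range.2 (by omega)
      · have b1 : m ∈ S.erase (m + 1) := mem_erase.2 ⟨by omega, hS.1⟩
        have b2 := card_erase_add_one b1
        have b3 := card_erase_add_one hS.2
        rw [card_insert_of_notMem (fun h => hy.2 (mem_of_mem_erase (mem_of_mem_erase h)))]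
        omega
    · have hy := sup_id_mem S (card_pos.1 (by omega))
      simp only [φ, if_neg hS]
      constructor
      · intro x hx
        obtain ⟨a1, a2⟩ := mem_erase.1 hx
        have a3 : x ≤ S.sup id := le_sup (f := id) a2
        have a4 := mem_range.1 (h1 hy)
        by_contra hc
        have a5 : m ≤ x := by simpa using hc
        have a6 : x = m := by omega
        have a7 : S.sup id = m + 1 := by omega
        exact hS ⟨a6 ▸ a2, a7 ▸ hy⟩
      · have := card_erase_add_one hy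
        omega
  · by_cases hS : m ∈ S ∧ m + 1 ∈ S
    · exact hmix S T h1 h2 h3 h5 hS.1 hS.2
    · by_cases hT : m ∈ T ∧ m + 1 ∈ T
      · exact (hmix T S h3 h4 h1 h5.symm hT.1 hT.2).symm
      · simp only [φ, if_neg hS, if_neg hT]
        exact h5.mono (erase_subset _ _) (erase_subset _ _)

lemma Col.iter (m b j : ℕ) (h : b ≤ m) : Col (m + 2 * j) (b + j) m b := by
  induction j with
  | zero => exact Col.refl m b
  | succ j ih => exact (Col.step (m + 2 * j) (b + j) (by omega)).comp ih

lemma Col.mul (m n a : ℕ) : Col m n (a * m) (a * n) := by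
  induction a with
  | zero => simpa using Col.zero m n
  | succ a ih => simpa [Nat.succ_mul] using ih.add (Col.refl m n)

theorem Col.stahl (m n a b : ℕ) (hm : 2 * n ≤ m) (hb : b ≤ n) :
    Col m n ((a + 1) * m - 2 * (n - b)) (a * n + b) := by
  have h1 := Col.iter (m - 2 * (n - b)) b (n - b) (by omega)
  rw [show m - 2 * (n - b) + 2 * (n - b) = m by omega, show b + (n - b) = n by omega] at h1
  have h2 := (Col.mul m n a).add h1
  have e : (a + 1) * m - 2 * (n - b) = a * m + (m - 2 * (n - b)) := by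
    rw [Nat.succ_mul]; omega
  rw [e]; exact h2

end Pool.Agent.P.MP_a66f6f_co
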