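import Pool.Agent.P.MP_a66f6f_co.Defs
import Pool.Agent.P.MP_a66f6f_co.Lower
import Pool.Agent.P.MP_a66f6f_co.Upper

/-! Passing between homomorphisms and multicolourings. -/

set_option autoImplicit false

namespace Pool.Agent.P.MP_a66f6f_co

open Finset

theorem hom_of_col {m n N k : ℕ} (hk : 1 ≤ k) (h : Col m n N k) :
    Nonempty (kneser m n →g kneser N k) := by
  obtain ⟨φ, a1, a2⟩ := h
  have hsub : ∀ S : Finset (Fin m), S.map Fin.valEmbedding ⊆ range m := by
    intro S x hx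
    obtain ⟨y, -, rfl⟩ := mem_map.1 hx
    exact mem_range.2 y.2
  let ψ : Finset (Fin m) → Finset (Fin N) := fun S =>
    univ.filter (fun i : Fin N => i.val ∈ φ (S.map Fin.valEmbedding))
  have hψ : ∀ S : Finset (Fin m), S.card = n → (ψ S).card = k := by
    intro S hS
    obtain ⟨b1, b2⟩ := a1 _ (hsub S) (by rw [card_map, hS])
    rw [← b2, ← card_map Fin.valEmbedding]
    congr 1
    ext x
    simp only [ψ, mem_map, mem_filter, mem_univ, true_and, Fin.valEmbedding_apply]
    constructor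
    · rintro ⟨y, hy, rfl⟩; exact hy
    · intro hx; exact ⟨⟨x, mem_range.1 (b1 hx)⟩, hx, rfl⟩
  have hd : ∀ S T : Finset (Fin m), S.card = n → T.card = n → Disjoint S T →
      Disjoint (ψ S) (ψ T) := by
    intro S T hS hT hST
    have := a2 _ _ (hsub S) (by rw [card_map, hS]) (hsub T) (by rw [card_map, hT])
      ((disjoint_map _).2 hST)
    refine disjoint_left.2 fun i hi hi' => ?_
    exact disjoint_left.1 this (mem_filter.1 hi).2 (mem_filter.1 hi').2
  refine ⟨⟨fun S => ⟨ψ S.1, hψ S.1 S.2⟩, ?_⟩⟩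
  rintro S T ⟨-, hST⟩
  have h1 := hd S.1 T.1 S.2 T.2 hST
  refine ⟨fun he => ?_, h1⟩
  have h2 : ψ S.1 = ψ T.1 := congrArg Subtype.val he
  rw [h2, disjoint_self, bot_eq_empty] at h1
  have := hψ T.1 T.2
  rw [h1, card_empty] at this
  omega

theorem col_of_hom {m n N k : ℕ} (hn : 1 ≤ n) (f : kneser m n →g kneser N k) :
    ∃ φ : Finset (Fin m) → Finset (Fin N), (∀ S, S.card = n → (φ S).card = k) ∧
      ∀ S T, S.card = n → T.card = n → Disjoint S T → Disjoint (φ S) (φ T) := by
  refine ⟨fun S => if h : S.card = n then (f ⟨S, h⟩).1 else ∅, fun S hS => ?_,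
    fun S T hS hT hST => ?_⟩
  · simp only [dif_pos hS]; exact (f ⟨S, hS⟩).2
  · simp only [dif_pos hS, dif_pos hT]
    have : (kneser m n).Adj ⟨S, hS⟩ ⟨T, hT⟩ := by
      refine ⟨fun he => ?_, hST⟩
      have h2 : S = T := congrArg Subtype.val he
      rw [h2, disjoint_self, bot_eq_empty] at hST
      rw [hST, card_empty] at hT
      omega
    exact (f.map_adj this).2

theorem stahl_sqrt (n m a b d : ℕ) (hm : 2 * n ≤ m) (hb : b ≤ n)
    (hd : (2 * d + 2) ^ 2 ≤ n) (h : (m - 2 * n - 1) * n < b * d) :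
    IsLeast {N : ℕ | Nonempty (kneser m n →g kneser N (a * n + b))}
      ((a + 1) * m - 2 * (n - b)) := by
  have hb1 : 1 ≤ b := by
    rcases Nat.eq_zero_or_pos b with rfl | h0
    · simp at h
    · exact h0
  refine ⟨hom_of_col (by omega) (Col.stahl m n a b hm hb), ?_⟩
  rintro N ⟨f⟩
  by_contra hN
  obtain ⟨φ, h1, h2⟩ := col_of_hom (by omega) f
  obtain ⟨s, rfl⟩ := Nat.exists_eq_add_of_le hm
  have hs : 2 * n + s - 2 * n - 1 = s - 1 := by omega
  rw [hs] at h
  have hsd : s ≤ d := by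
    have h3 : (s - 1) * n < d * n := by nlinarith
    have := Nat.lt_of_mul_lt_mul_right h3
    omega
  have hN' : N < 2 * (a * n + b) + (a + 1) * s := by
    have e : (a + 1) * (2 * n + s) = 2 * (a * n) + 2 * n + (a + 1) * s := by ring
    omega
  obtain ⟨-, h4⟩ := lower_bound n s (a * n + b) a d (by simp) φ h1 h2 hd hsd (by simpa using hN')
  nlinarith

end Pool.Agent.P.MP_a66f6f_co
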